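import Pool.Agent.Helper42.QD.Stmts

/-!
Shifting an eigenvector with diagonal type (module DG3 for `MP_75837a_al`).
-/

set_option autoImplicit false
set_option linter.unusedSimpArgs false

namespace Pool.Agent.Helper42.QD

open VD

section DG3

variable {D k : Type} [DivisionRing D] [Field k] {c : VD D k} {R : KM c}

/-- The action of `nm y` on `rho (nn b) f` for a diagonal type. -/
theorem dg3_act {h : ℕ} {m0 m1 : D} {f : Sp c} (hf : Ty R h !![m0, 0; 0, m1] f) {b y : D}
    (hb : c.P 0 b) (hy : c.P h y) :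
    R.rho (nm y) (R.rho (nn b) f) = c.psi ((b * m1 - m0 * b) * y) • R.rho (nn b) f := by
  have e00 : (nn (-b) * nm y * nn b).val 0 0 = 1 - b * y := by
    simp only [mul00, mul01, nn_val, nm_val, Matrix.of_apply, Matrix.cons_val',
      Matrix.cons_val_zero, Matrix.cons_val_one, Matrix.cons_val_fin_one]
    noncomm_ring
  have e01 : (nn (-b) * nm y * nn b).val 0 1 = -(b * y * b) := by
    simp only [mul00, mul01, mul10, mul11, nn_val, nm_val, Matrix.of_apply, Matrix.cons_val',
      Matrix.cons_val_zero, Matrix.cons_val_one, Matrix.cons_val_fin_one]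
    noncomm_ring
  have e10 : (nn (-b) * nm y * nn b).val 1 0 = y := by
    simp only [mul00, mul01, mul10, mul11, nn_val, nm_val, Matrix.of_apply, Matrix.cons_val',
      Matrix.cons_val_zero, Matrix.cons_val_one, Matrix.cons_val_fin_one]
    noncomm_ring
  have e11 : (nn (-b) * nm y * nn b).val 1 1 = 1 + y * b := by
    simp only [mul00, mul01, mul10, mul11, nn_val, nm_val, Matrix.of_apply, Matrix.cons_val',
      Matrix.cons_val_zero, Matrix.cons_val_one, Matrix.cons_val_fin_one]
    noncomm_ring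
  have hK : KK c h (nn (-b) * nm y * nn b) := by
    refine KK_iff.2 ⟨?_, ?_, ?_, ?_⟩
    · rw [e00, show 1 - b * y - 1 = -(b * y) by abel]
      exact P_neg (P_mul' hb hy (by omega))
    · rw [e01]
      exact P_neg (P_mul' (P_mul hb hy) hb (by omega))
    · rw [e10]; exact hy
    · rw [e11, add_sub_cancel_left]
      exact P_mul' hy hb (by omega)
  have h1 : nm y * nn b = nn b * (nn (-b) * nm y * nn b) := by
    rw [← mul_assoc, ← mul_assoc, ← nn_add, add_neg_cancel, nn_zero, one_mul]
  rw [← rho_mul, h1, rho_mul, hf _ hK, map_smul]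
  congr 1
  have h2 : ((!![m0, 0; 0, m1] : Matrix (Fin 2) (Fin 2) D) *
      ((nn (-b) * nm y * nn b).val - 1)).trace = -((m0 * b) * y) + m1 * (y * b) := by
    simp only [Matrix.trace_fin_two, Matrix.mul_apply, Fin.sum_univ_two, sub00, sub01, sub10,
      sub11, e00, e01, e10, e11, Matrix.of_apply, Matrix.cons_val',
      Matrix.cons_val_zero, Matrix.cons_val_one, Matrix.cons_val_fin_one]
    noncomm_ring
  rw [h2, AddChar.map_add_eq_mul, ← mul_assoc, c.psi_comm (m1 * y) b, ← mul_assoc,
    ← AddChar.map_add_eq_mul]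
  congr 1
  noncomm_ring

/-- The elements `b` with `b m1 - m0 b` small act trivially on `f`. -/
theorem dg3_fix (hSUP : ST_SUP) {h : ℕ} (hh : 0 < h) {oh m0 m1 : D} {f : Sp c}
    (hoh : IsOh R h oh) (hm0 : c.P (-h) m0) (hm1 : c.P (-h) m1)
    (hz : ∃ z, c.P h z ∧ c.P 1 (m0 * z + z * m0 - oh * z + 1))
    (hf : Ty R h !![m0, 0; 0, m1] f) (hs : ∀ x, f.1 x ≠ 0 → c.P 0 x)
    {b : D} (hb : c.P 0 b) (hb' : c.P (1 - h) (b * m1 - m0 * b)) : R.rho (nn b) f = f := by
  have hM := P_of hm0 (c.P_zero (-h)) (c.P_zero (-h)) hm1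
  apply Sp_ext
  intro x
  rw [R.rn]
  by_cases hx : f.1 x = 0
  · rw [hx, mul_zero]
  have hx0 : x ≠ 0 := by
    rintro rfl
    exact hx (val_zero f)
  have hxO := hs x hx
  by_cases hx1 : c.P 1 x
  · rw [psi_triv (i := 0) (by simpa using hx1) hb, one_mul]
  have hv : c.v x = 0 := by
    have h1 := lt_of_not_P hx1
    have h2 := (P_iff hx0).1 hxO
    omega
  have hS := hSUP D k c R h oh _ f hh hoh hM hf x hx
  have hS' : c.P (1 - h) (m1 - oh + x * m0 * x⁻¹) := by
    simpa using hS
  have key : c.psi (b * x) = 1 := by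
    obtain ⟨z, hzh, hz1⟩ := hz
    have hbx : c.P 0 (b * x) := P_mul' hb hxO (by omega)
    -- conjugation invariance of `oh`
    have hcm : ∀ y, c.P 0 y → c.P (1 - h) (y * oh - oh * y) := by
      intro y hy
      by_cases hy0 : y = 0
      · rw [hy0, zero_mul, mul_zero, sub_zero]; exact c.P_zero _
      · have h1 := P_mul' (l := 1 - h) (hoh.2.2 y hy0) hy (by omega)
        rwa [sub_mul, inv_mul_cancel_right₀ hy0] at h1
    have hE : c.P (1 - h) (oh * (b * x) - b * x * m0 - m0 * (b * x)) := by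
      have h1 : oh * (b * x) - b * x * m0 - m0 * (b * x) =
          -(b * oh - oh * b) * x - b * (m1 - oh + x * m0 * x⁻¹) * x +
            (b * m1 - m0 * b) * x := by
        have h2 : b * (m1 - oh + x * m0 * x⁻¹) * x = b * m1 * x - b * oh * x + b * x * m0 := by
          have h3 : b * (x * m0 * x⁻¹) * x = b * x * m0 := by
            rw [mul_assoc b, inv_mul_cancel_right₀ hx0, mul_assoc]
          rw [mul_add, mul_sub, add_mul, sub_mul, h3]
        rw [h2]
        noncomm_ring
      rw [h1]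
      exact P_add (P_sub (P_mul' (P_neg (hcm b hb)) hxO (by omega))
        (P_mul' (P_mul hb hS') hxO (by omega))) (P_mul' hb' hxO (by omega))
    have hF : c.P 1 (b * x * (m0 * z + z * m0 - oh * z + 1)) := P_mul' hbx hz1 (by omega)
    have e1 : c.psi (b * x * (m0 * z + z * m0 - oh * z + 1)) = 1 := c.psi_P _ hF
    have e2 : b * x * (m0 * z + z * m0 - oh * z + 1) =
        b * x * m0 * z + (b * x * z) * m0 + (-(b * x * oh * z) + b * x) := by noncomm_ring
    rw [e2, AddChar.map_add_eq_mul, AddChar.map_add_eq_mul, AddChar.map_add_eq_mul,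
      c.psi_comm (b * x * z) m0] at e1
    have e3 : c.psi (-(b * x * oh * z)) = c.psi (-(oh * (b * x) * z)) := by
      apply psi_congr
      rw [show -(b * x * oh * z) - -(oh * (b * x) * z) =
        -((b * x * oh - oh * (b * x)) * z) by noncomm_ring]
      exact P_neg (P_mul' (hcm _ hbx) hzh (by omega))
    rw [e3, ← mul_assoc, ← AddChar.map_add_eq_mul, ← AddChar.map_add_eq_mul] at e1
    have e4 : b * x * m0 * z + m0 * (b * x * z) + -(oh * (b * x) * z) =
        -((oh * (b * x) - b * x * m0 - m0 * (b * x)) * z) := by noncomm_ring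
    rw [e4, c.psi_P _ (P_neg (P_mul' hE hzh (by omega))), one_mul] at e1
    exact e1
  rw [c.psi_comm x b, key, one_mul]

end DG3

theorem st_DG3 (hSUP : ST_SUP) : ST_DG3 := by
  classical
  intro D k _ _ _ c R h oh m0 m1 f hh hoh hm0 hm1 hz hf hf0 hs
  have hM := P_of hm0 (c.P_zero (-h)) (c.P_zero (-h)) hm1
  have hfix : Fix R ((h : ℤ) + 1) f := Ty_Fix hM hf
  obtain ⟨u, huF, hu⟩ := cut_Fix (i := 0) le_rfl hfix 0
  have hu1 : ∀ x, c.P 1 x → u.1 x = f.1 x := by
    intro x hx
    rw [hu]
    exact cut_apply_of (by simpa using hx)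
  have hu2 : ∀ x, ¬ c.P 1 x → u.1 x = 0 := by
    intro x hx
    rw [hu]
    exact cut_apply_of_not (by simpa using hx)
  have husupp : ∀ x, u.1 x ≠ 0 → c.P 1 x := by
    intro x hx
    by_contra h1
    exact hx (hu2 x h1)
  -- `u` is not zero
  have hune : u ≠ 0 := by
    intro hu0
    have hf1 : ∀ x, c.P 1 x → f.1 x = 0 := by
      intro x hx
      rw [← hu1 x hx, hu0]; rfl
    obtain ⟨S0, hS00, hS01, hS02, hS03⟩ := exists_reps c 0 1
    obtain ⟨Sh, hSh0, hSh1, hSh2, hSh3⟩ := exists_reps c h 1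
    have hsum : ∑ b ∈ S0, R.rho (nn b) f = 0 := by
      apply Sp_ext
      intro x
      have h1 : (∑ b ∈ S0, R.rho (nn b) f : Sp c).1 x = (∑ b ∈ S0, c.psi (x * b)) * f.1 x := by
        rw [Submodule.coe_sum, Finset.sum_apply, Finset.sum_mul]
        exact Finset.sum_congr rfl fun b _ => R.rn b f x
      rw [h1]
      change _ = (0 : ℂ)
      by_cases hx : f.1 x = 0
      · rw [hx, mul_zero]
      · rw [chsum hS01 hS02 hS03 (by simpa using hs x hx), if_neg, zero_mul]
        intro h2
        exact hx (hf1 x (by simpa using h2))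
    have h2 : ∑ y ∈ Sh, R.rho (nm y) (∑ b ∈ S0, R.rho (nn b) f) = 0 := by
      rw [hsum]
      exact Finset.sum_eq_zero fun y _ => map_zero _
    have h3 : ∑ y ∈ Sh, R.rho (nm y) (∑ b ∈ S0, R.rho (nn b) f) =
        (∑ b ∈ S0, if c.P (1 - h) (b * m1 - m0 * b) then (Sh.card : ℂ) else 0) • f := by
      simp only [map_sum]
      rw [Finset.sum_comm, Finset.sum_smul]
      refine Finset.sum_congr rfl fun b hb => ?_
      have hb0 := hS01 b hb
      rw [Finset.sum_congr rfl fun y hy => dg3_act hf hb0 (hSh1 y hy), ← Finset.sum_smul]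
      have hzb : c.P (1 - (h : ℤ) - (1 : ℕ)) (b * m1 - m0 * b) :=
        P_sub (P_mul' hb0 hm1 (by push_cast; omega)) (P_mul' hm0 hb0 (by push_cast; omega))
      rw [chsum hSh1 hSh2 hSh3 hzb]
      split_ifs with h4
      · rw [dg3_fix hSUP hh hoh hm0 hm1 hz hf hs hb0 h4]
      · rw [zero_smul, zero_smul]
    rw [h2] at h3
    have h4 : (∑ b ∈ S0, if c.P (1 - h) (b * m1 - m0 * b) then (Sh.card : ℂ) else 0) ≠ 0 := by
      rw [← Finset.sum_filter, Finset.sum_const, nsmul_eq_mul]
      refine mul_ne_zero ?_ (by exact_mod_cast hSh0.card_pos.ne')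
      have h5 : 0 < (S0.filter fun b => c.P (1 - h) (b * m1 - m0 * b)).card := by
        obtain ⟨s, hs1, hs2⟩ := hS02 0 (c.P_zero 0)
        refine Finset.card_pos.2 ⟨s, Finset.mem_filter.2 ⟨hs1, ?_⟩⟩
        have hs3 : c.P 1 s := by
          have := P_neg hs2
          rw [zero_sub, neg_neg] at this
          exact P_mono (by norm_num) this
        exact P_sub (P_mul' hs3 hm1 (by omega)) (P_mul' hm0 hs3 (by omega))
      exact_mod_cast h5.ne'
    rcases smul_eq_zero.1 h3.symm with h5 | h5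
    · exact h4 h5
    · exact hf0 h5
  have hT := c.T_ne
  have hTP : c.P 1 c.T := Or.inr (by rw [c.v_T])
  refine ⟨R.rho (dg c.T 1) u, rho_ne hune, ?_, ?_, ?_⟩
  · have hh1 : (1 : ℤ) ≤ h := by omega
    have hsup' : ∀ x, (R.rho (dg c.T 1) u).1 x ≠ 0 → c.P 0 x := by
      intro x hx
      rw [rt_left hT] at hx
      have h1 := P_of_mul_right hT (husupp _ hx)
      rw [c.v_T] at h1
      exact h1
    refine Ty_of hh1 (P_of (P_conj hT hm0) (c.P_zero _) (c.P_zero _) hm1) ?_ ?_ ?_
    · intro b hb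
      rw [nn_of_supp (i := h) (fun x hx => P_mono (by omega) (hsup' x hx)) hb]
      simp
    · intro a d ha hd
      have ha1 := (one_add (P_mono hh1 ha)).1
      have hd1 := (one_add (P_mono hh1 hd)).1
      have ha' : c.P h (c.T⁻¹ * a * c.T) := P_conj' hT ha
      have ha1' := one_add (P_mono hh1 ha')
      have hd1' := one_add (P_mono hh1 hd)
      have e1 : dg (1 + a) (1 + d) * dg c.T 1 = dg c.T 1 * dg (1 + c.T⁻¹ * a * c.T) (1 + d) := by
        rw [dg_mul ha1 hd1 hT one_ne_zero, dg_mul hT one_ne_zero ha1'.1 hd1]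
        congr 1
        · rw [mul_add, mul_one, add_mul, one_mul, mul_assoc c.T⁻¹, mul_inv_cancel_left₀ hT]
        · rw [mul_one, one_mul]
      have e2 : R.rho (dg (1 + c.T⁻¹ * a * c.T) (1 + d)) u =
          c.psi (m0 * (c.T⁻¹ * a * c.T) + m1 * d) • u := by
        apply Sp_ext
        intro x
        have h3 := congrArg (fun g : Sp c => g.1 x) (Ty_dg hh1 hf ha' hd)
        change (R.rho (dg (1 + c.T⁻¹ * a * c.T) (1 + d)) f).1 x = c.psi _ * f.1 x at h3
        change _ = c.psi _ * u.1 x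
        rw [R.rt _ _ ha1'.1 hd1] at h3 ⊢
        have h4 : c.P 1 ((1 + d)⁻¹ * x * (1 + c.T⁻¹ * a * c.T)) ↔ c.P 1 x := by
          constructor
          · intro h5
            have h6 := P_of_mul_left (inv_ne_zero hd1) (P_of_mul_right ha1'.1 h5)
            rw [v_inv hd1, hd1'.2, ha1'.2] at h6
            exact P_mono (by omega) h6
          · intro h5
            exact P_mul' (P_mul' (m := 0) (n := 1) (l := 1)
              (Or.inr (by rw [v_inv hd1, hd1'.2]; simp)) h5 (by omega))
              (n := 0) (Or.inr ha1'.2.ge) (by omega)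
        by_cases hx : c.P 1 x
        · rw [hu1 x hx, hu1 _ (h4.2 hx), h3]
          simp
        · rw [hu2 x hx, hu2 _ (fun h5 => hx (h4.1 h5)), mul_zero, mul_zero]
      rw [← rho_mul, e1, rho_mul, e2, map_smul]
      congr 1
      have e3 : m0 * (c.T⁻¹ * a * c.T) = (m0 * c.T⁻¹ * a) * c.T := by simp only [mul_assoc]
      simp only [Matrix.of_apply, Matrix.cons_val',
        Matrix.cons_val_zero, Matrix.cons_val_one, Matrix.cons_val_fin_one]
      rw [AddChar.map_add_eq_mul, AddChar.map_add_eq_mul, e3, c.psi_comm]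
      simp only [mul_assoc]
    · intro b hb
      have e1 : nm b * dg c.T 1 = dg c.T 1 * nm (b * c.T) := by
        rw [dg_nm hT one_ne_zero, one_mul, mul_inv_cancel_right₀ hT]
      rw [← rho_mul, e1, rho_mul, huF _ (KK_nm (P_mul' hb hTP le_rfl))]
      simp
  · intro x hx
    rw [rt_left hT, hu1 _ (P_mul' hx hTP (by omega))]
  · intro x hx
    rw [rt_left hT] at hx
    have h1 := P_of_mul_right hT (husupp _ hx)
    rw [c.v_T] at h1
    exact h1

end Pool.Agent.Helper42.QD
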